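import Mathlib
import Pool.Agent.K6.H34.TT.Stm
import Pool.Agent.W214.RK2.Desc4

/-! Project TT, part BOX (helper25): from the sums over the twists of coprime pairs to a box. -/

set_option autoImplicit false

namespace Pool.Agent.K6.H25.TT

open Finset Pool.Agent.W262.RK Pool.Agent.W307.RT Pool.Agent.K6.H34.TT

open Classical in
lemma NL_one (L : ℕ → Bool → Bool → Bool → Bool → Prop) : NL 1 L ≤ 1 := by
  unfold NL
  refine (card_filter_le _ _).trans ?_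
  simp

/-- the trivial bound of the rank -/
lemma triv (A B : ℤ) (hA : A ≠ 0) (hB : B ≠ 0) (hAB : A ≠ B) :
    2 ^ Module.finrank ℤ (EAB A B).toAffine.Point ≤
      4 ^ ((2 * A * B * (A - B)).natAbs.primeFactors.card + 2) := by
  classical
  have h := Pool.Agent.W214.RK2.desc4 1 (fun _ _ _ _ _ => True) A B hA hB hAB odd_one
    squarefree_one
    (fun p hp h1 => absurd (Nat.dvd_one.mp h1) hp.ne_one)
    (fun p hp h1 => absurd (Nat.dvd_one.mp h1) hp.out.ne_one)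
  refine h.trans ?_
  have h1 := NL_one (fun _ _ _ _ _ => True)
  calc _ ≤ 4 ^ (((2 * A * B * (A - B)).natAbs.primeFactors.filter (fun q => ¬ q ∣ 1)).card + 2) *
        1 := Nat.mul_le_mul_left _ h1
    _ ≤ _ := by
      rw [mul_one]
      apply Nat.pow_le_pow_right (by norm_num)
      have := card_filter_le (2 * A * B * (A - B)).natAbs.primeFactors (fun q => ¬ q ∣ 1)
      omega

/-- the trivial bound in a box -/
lemma trivBox (h2 : OMG) : ∃ C : ℝ, 0 ≤ C ∧ ∀ N : ℕ, 1 ≤ N → ∀ A B : ℤ, A ≠ 0 → B ≠ 0 → A ≠ B →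
    A.natAbs ≤ N → B.natAbs ≤ N →
    (2 : ℝ) ^ Module.finrank ℤ (EAB A B).toAffine.Point ≤ C * Real.sqrt N := by
  obtain ⟨C, hC, h⟩ := h2 4 (1 / 6) (by norm_num)
  refine ⟨16 * C * 2, by positivity, ?_⟩
  intro N hN A B hA hB hAB h3 h4
  have h5 := triv A B hA hB hAB
  set n := (2 * A * B * (A - B)).natAbs with hn
  have hn0 : 1 ≤ n := by
    rw [hn]
    apply Int.natAbs_pos.2
    exact mul_ne_zero (mul_ne_zero (mul_ne_zero two_ne_zero hA) hB) (sub_ne_zero.mpr hAB)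
  have hn1 : n ≤ 64 * N ^ 3 := by
    rw [hn, Int.natAbs_mul, Int.natAbs_mul, Int.natAbs_mul]
    have h6 : (A - B).natAbs ≤ 2 * N := by omega
    have : (2 : ℤ).natAbs = 2 := rfl
    rw [this]
    calc 2 * A.natAbs * B.natAbs * (A - B).natAbs ≤ 2 * N * N * (2 * N) := by gcongr
      _ = 4 * N ^ 3 := by ring
      _ ≤ _ := by omega
  have h6 := h n hn0
  have h7 : ((n : ℝ)) ^ (1 / 6 : ℝ) ≤ 2 * Real.sqrt N := by
    have h8 : (n : ℝ) ≤ (2 * Real.sqrt N) ^ (6 : ℕ) := by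
      have h9 : (2 * Real.sqrt N) ^ (6 : ℕ) = 64 * (N : ℝ) ^ 3 := by
        have h10 : Real.sqrt N ^ 2 = N := Real.sq_sqrt (Nat.cast_nonneg N)
        calc (2 * Real.sqrt N) ^ (6 : ℕ) = 64 * (Real.sqrt N ^ 2) ^ 3 := by ring
          _ = _ := by rw [h10]
      rw [h9]
      exact_mod_cast hn1
    calc ((n : ℝ)) ^ (1 / 6 : ℝ) ≤ ((2 * Real.sqrt N) ^ (6 : ℕ)) ^ (1 / 6 : ℝ) := by
          apply Real.rpow_le_rpow (Nat.cast_nonneg _) h8 (by norm_num)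
      _ = 2 * Real.sqrt N := by
          rw [← Real.rpow_natCast, ← Real.rpow_mul (by positivity)]
          norm_num
  calc (2 : ℝ) ^ Module.finrank ℤ (EAB A B).toAffine.Point
      = ((2 ^ Module.finrank ℤ (EAB A B).toAffine.Point : ℕ) : ℝ) := by push_cast; rfl
    _ ≤ ((4 ^ (n.primeFactors.card + 2) : ℕ) : ℝ) := by exact_mod_cast h5
    _ = 16 * ((4 : ℕ) : ℝ) ^ n.primeFactors.card := by push_cast; ring
    _ ≤ 16 * (C * (n : ℝ) ^ (1 / 6 : ℝ)) := by gcongr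
    _ ≤ 16 * (C * (2 * Real.sqrt N)) := by gcongr
    _ = _ := by ring

/-- the parameters of the forms -/
def al (e : ℤ × ℤ) : Fin 3 → ℤ := ![e.1, 2 * e.1, -e.1]

/-- the parameters of the forms -/
def be (e : ℤ × ℤ) : Fin 3 → ℤ := ![0, e.2, -e.2]

/-- the signs -/
def sg : Finset (ℤ × ℤ) := {1, -1} ×ˢ {1, -1}

lemma mem_sg {e : ℤ × ℤ} : e ∈ sg ↔ (e.1 = 1 ∨ e.1 = -1) ∧ (e.2 = 1 ∨ e.2 = -1) := by
  simp [sg]

lemma al_ne {e : ℤ × ℤ} (he : e ∈ sg) (j : Fin 3) : al e j ≠ 0 := by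
  obtain ⟨h1, -⟩ := mem_sg.1 he
  fin_cases j <;> simp [al] <;> omega

lemma res_ne {e : ℤ × ℤ} (he : e ∈ sg) (j l : Fin 3) (hjl : j ≠ l) : Res (al e) (be e) j l ≠ 0 := by
  obtain ⟨h1, h2⟩ := mem_sg.1 he
  unfold Res
  rcases h1 with h1 | h1 <;> rcases h2 with h2 | h2 <;> fin_cases j <;> fin_cases l <;>
    simp_all [al, be]

/-- the points of the box -/
noncomputable def Bx (N : ℕ) : Finset (ℤ × ℤ) :=
  ((Icc (-(N : ℤ)) N) ×ˢ (Icc (-(N : ℤ)) N)).filter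
      (fun t : ℤ × ℤ => t.1 ≠ 0 ∧ t.2 ≠ 0 ∧ t.1 ≠ t.2)

lemma mem_Bx {N : ℕ} {t : ℤ × ℤ} : t ∈ Bx N ↔ t.1.natAbs ≤ N ∧ t.2.natAbs ≤ N ∧ t.1 ≠ 0 ∧
    t.2 ≠ 0 ∧ t.1 ≠ t.2 := by
  unfold Bx
  rw [mem_filter, mem_product, mem_Icc, mem_Icc]
  constructor
  · rintro ⟨⟨h1, h2⟩, h3⟩
    exact ⟨by omega, by omega, h3⟩
  · rintro ⟨h1, h2, h3⟩
    exact ⟨⟨by omega, by omega⟩, h3⟩

/-- the triples of AVGR -/
noncomputable def Q (α β : Fin 3 → ℤ) (X : ℕ) : Finset (ℕ × ℕ × ℕ) :=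
  ((Icc 1 X) ×ˢ (Icc 1 (X ^ 2)) ×ˢ (Icc 1 (X ^ 2))).filter (fun t : ℕ × ℕ × ℕ =>
      t.1 * t.2.1 ≤ X ^ 2 ∧ t.1 * t.2.2 ≤ X ^ 2 ∧ t.2.1.Coprime t.2.2 ∧
        ∀ j, fv α β (t.2.1 : ℤ) (t.2.2 : ℤ) j ≠ 0)

/-- the map to the triples -/
def ph (t : ℤ × ℤ) : ℕ × ℕ × ℕ :=
  (Int.gcd t.1 t.2, t.1.natAbs / Int.gcd t.1 t.2, (t.2 - 2 * t.1).natAbs / Int.gcd t.1 t.2)

/-- the inverse map -/
def ps (e : ℤ × ℤ) (y : ℕ × ℕ × ℕ) : ℤ × ℤ :=
  ((y.1 : ℤ) * fv (al e) (be e) (y.2.1 : ℤ) (y.2.2 : ℤ) 0,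
    (y.1 : ℤ) * fv (al e) (be e) (y.2.1 : ℤ) (y.2.2 : ℤ) 1)

lemma fv0 (e : ℤ × ℤ) (u v : ℤ) : fv (al e) (be e) u v 0 = e.1 * u := by
  simp [fv, al, be]

lemma fv1 (e : ℤ × ℤ) (u v : ℤ) : fv (al e) (be e) u v 1 = 2 * e.1 * u + e.2 * v := by
  simp [fv, al, be]

lemma fv2 (e : ℤ × ℤ) (u v : ℤ) : fv (al e) (be e) u v 2 = -e.1 * u - e.2 * v := by
  simp [fv, al, be]; ring

/-- the structure of a point -/
lemma struct (e t : ℤ × ℤ) (h1 : t.1 ≠ 0) (he : (t.1.sign, (t.2 - 2 * t.1).sign) = e) :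
    ∃ g u v : ℕ, ph t = (g, u, v) ∧ 1 ≤ g ∧ 1 ≤ u ∧ g * u = t.1.natAbs ∧
      g * v = (t.2 - 2 * t.1).natAbs ∧ u.Coprime v ∧ g = Int.gcd t.1 t.2 ∧
      ps e (g, u, v) = t := by
  have hg0 : 0 < Int.gcd t.1 t.2 := Int.gcd_pos_of_ne_zero_left _ h1
  set g := Int.gcd t.1 t.2 with hg
  have hd1 : (g : ℤ) ∣ t.1 := Int.gcd_dvd_left ..
  have hd2 : (g : ℤ) ∣ t.2 - 2 * t.1 := dvd_sub (Int.gcd_dvd_right ..) (hd1.mul_left 2)
  have hd1' : g ∣ t.1.natAbs := Int.natCast_dvd.mp hd1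
  have hd2' : g ∣ (t.2 - 2 * t.1).natAbs := Int.natCast_dvd.mp hd2
  have hu : g * (t.1.natAbs / g) = t.1.natAbs := Nat.mul_div_cancel' hd1'
  have hv : g * ((t.2 - 2 * t.1).natAbs / g) = (t.2 - 2 * t.1).natAbs := Nat.mul_div_cancel' hd2'
  refine ⟨g, t.1.natAbs / g, (t.2 - 2 * t.1).natAbs / g, rfl, hg0, ?_, hu, hv, ?_, rfl, ?_⟩
  · rcases Nat.eq_zero_or_pos (t.1.natAbs / g) with h | h
    · rw [h, mul_zero] at hu
      exact absurd (Int.natAbs_eq_zero.mp hu.symm) h1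
    · exact h
  · have h3 : Nat.gcd t.1.natAbs (t.2 - 2 * t.1).natAbs = g := by
      have : Int.gcd t.1 (t.2 - 2 * t.1) = Int.gcd t.1 t.2 := by
        rw [show t.2 - 2 * t.1 = t.2 + (-2) * t.1 by ring]
        simp
      exact this
    rw [← h3]
    apply Nat.coprime_div_gcd_div_gcd
    rw [h3]; exact hg0
  · have hs1 : t.1.sign * (t.1.natAbs : ℤ) = t.1 := Int.sign_mul_natAbs _
    have hs2 : (t.2 - 2 * t.1).sign * ((t.2 - 2 * t.1).natAbs : ℤ) = t.2 - 2 * t.1 :=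
      Int.sign_mul_natAbs _
    have hu' : ((g : ℤ)) * ((t.1.natAbs / g : ℕ) : ℤ) = (t.1.natAbs : ℤ) := by exact_mod_cast hu
    have hv' : ((g : ℤ)) * (((t.2 - 2 * t.1).natAbs / g : ℕ) : ℤ) =
      ((t.2 - 2 * t.1).natAbs : ℤ) := by exact_mod_cast hv
    have he1 : e.1 = t.1.sign := by rw [← he]
    have he2 : e.2 = (t.2 - 2 * t.1).sign := by rw [← he]
    unfold ps
    simp only [fv0, fv1]
    refine Prod.ext ?_ ?_
    · show (g : ℤ) * (e.1 * ((t.1.natAbs / g : ℕ) : ℤ)) = t.1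
      calc (g : ℤ) * (e.1 * ((t.1.natAbs / g : ℕ) : ℤ)) =
            e.1 * ((g : ℤ) * ((t.1.natAbs / g : ℕ) : ℤ)) := by ring
        _ = _ := by rw [hu', he1, hs1]
    · show (g : ℤ) * (2 * e.1 * ((t.1.natAbs / g : ℕ) : ℤ) +
        e.2 * (((t.2 - 2 * t.1).natAbs / g : ℕ) : ℤ)) = t.2
      calc (g : ℤ) * (2 * e.1 * ((t.1.natAbs / g : ℕ) : ℤ) +
            e.2 * (((t.2 - 2 * t.1).natAbs / g : ℕ) : ℤ)) =
            2 * (e.1 * ((g : ℤ) * ((t.1.natAbs / g : ℕ) : ℤ))) +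
            e.2 * ((g : ℤ) * (((t.2 - 2 * t.1).natAbs / g : ℕ) : ℤ)) := by ring
        _ = 2 * t.1 + (t.2 - 2 * t.1) := by rw [hu', hv', he1, hs1, he2, hs2]
        _ = t.2 := by ring

/-- the main part -/
lemma mainPart (f : ℤ × ℤ → ℝ) (hf : ∀ t, 0 ≤ f t) (N X : ℕ) (hX : 3 * N ≤ X ^ 2) :
    ∑ t ∈ (Bx N).filter (fun t => t.2 ≠ 2 * t.1 ∧ Int.gcd t.1 t.2 ≤ X), f t ≤
      ∑ e ∈ sg, ∑ y ∈ Q (al e) (be e) X, f (ps e y) := by
  classical
  have hmap : ∀ t ∈ (Bx N).filter (fun t => t.2 ≠ 2 * t.1 ∧ Int.gcd t.1 t.2 ≤ X),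
      (t.1.sign, (t.2 - 2 * t.1).sign) ∈ sg := by
    intro t ht
    rw [mem_filter, mem_Bx] at ht
    obtain ⟨⟨-, -, h3, -⟩, h4, -⟩ := ht
    rw [mem_sg]
    have h5 : t.2 - 2 * t.1 ≠ 0 := sub_ne_zero.mpr h4
    constructor
    · rcases lt_or_gt_of_ne h3 with h | h
      · right; exact Int.sign_eq_neg_one_of_neg h
      · left; exact Int.sign_eq_one_of_pos h
    · rcases lt_or_gt_of_ne h5 with h | h
      · right; exact Int.sign_eq_neg_one_of_neg h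
      · left; exact Int.sign_eq_one_of_pos h
  rw [← sum_fiberwise_of_maps_to hmap]
  apply sum_le_sum
  intro e he
  have hinv : ∀ t ∈ ((Bx N).filter (fun t => t.2 ≠ 2 * t.1 ∧ Int.gcd t.1 t.2 ≤ X)).filter
      (fun t => (t.1.sign, (t.2 - 2 * t.1).sign) = e), ps e (ph t) = t := by
    intro t ht
    rw [mem_filter, mem_filter, mem_Bx] at ht
    obtain ⟨g, u, v, h1, -, -, -, -, -, -, h2⟩ := struct e t ht.1.1.2.2.1 ht.2
    rw [h1, h2]
  rw [← sum_congr rfl (fun t ht => by rw [hinv t ht] :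
    ∀ t ∈ ((Bx N).filter (fun t => t.2 ≠ 2 * t.1 ∧ Int.gcd t.1 t.2 ≤ X)).filter
      (fun t => (t.1.sign, (t.2 - 2 * t.1).sign) = e), f (ps e (ph t)) = f t)]
  rw [← sum_image (f := fun y => f (ps e y)) (g := ph)]
  · apply sum_le_sum_of_subset_of_nonneg
    · intro y hy
      obtain ⟨t, ht, rfl⟩ := mem_image.1 hy
      rw [mem_filter, mem_filter, mem_Bx] at ht
      obtain ⟨⟨⟨h1, h2, h3, h4, h5⟩, h6, h7⟩, h8⟩ := ht
      obtain ⟨g, u, v, h9, h10, h11, h12, h13, h14, h15, h16⟩ := struct e t h3 h8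
      rw [h9]
      have hv1 : 1 ≤ v := by
        rcases Nat.eq_zero_or_pos v with h | h
        · rw [h, mul_zero] at h13
          exact absurd (sub_eq_zero.mp (Int.natAbs_eq_zero.mp h13.symm)) h6
        · exact h
      have h17 : g * u ≤ X ^ 2 := by rw [h12]; omega
      have h18 : g * v ≤ X ^ 2 := by rw [h13]; omega
      unfold Q
      rw [mem_filter, mem_product, mem_product, mem_Icc, mem_Icc, mem_Icc]
      refine ⟨⟨⟨h10, by omega⟩, ⟨h11, ?_⟩, ⟨hv1, ?_⟩⟩, h17, h18, h14, ?_⟩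
      · exact (Nat.le_mul_of_pos_left u h10).trans h17
      · exact (Nat.le_mul_of_pos_left v h10).trans h18
      · have hp1 : (g : ℤ) * fv (al e) (be e) (u : ℤ) (v : ℤ) 0 = t.1 := congrArg Prod.fst h16
        have hp2 : (g : ℤ) * fv (al e) (be e) (u : ℤ) (v : ℤ) 1 = t.2 := congrArg Prod.snd h16
        have hp3 : (g : ℤ) * fv (al e) (be e) (u : ℤ) (v : ℤ) 2 = t.1 - t.2 := by
          rw [← hp1, ← hp2, fv0, fv1, fv2]; ring
        intro j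
        show fv (al e) (be e) (u : ℤ) (v : ℤ) j ≠ 0
        fin_cases j
        · intro h
          rw [show fv (al e) (be e) (u : ℤ) (v : ℤ) 0 = 0 from h, mul_zero] at hp1
          exact h3 hp1.symm
        · intro h
          rw [show fv (al e) (be e) (u : ℤ) (v : ℤ) 1 = 0 from h, mul_zero] at hp2
          exact h4 hp2.symm
        · intro h
          rw [show fv (al e) (be e) (u : ℤ) (v : ℤ) 2 = 0 from h, mul_zero] at hp3
          exact h5 (sub_eq_zero.mp hp3.symm)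
    · intro y _ _
      exact hf _
  · intro t ht t' ht' htt
    rw [← hinv t ht, ← hinv t' ht', htt]

/-- the number of the points on a line -/
lemma card_line (N : ℕ) (hN : 1 ≤ N) :
    ((Bx N).filter (fun t => t.2 = 2 * t.1)).card ≤ 3 * N := by
  classical
  have h1 : ((Bx N).filter (fun t => t.2 = 2 * t.1)).card ≤ (Icc (-(N : ℤ)) N).card := by
    apply card_le_card_of_injOn Prod.fst
    · intro t ht
      rw [mem_coe, mem_filter, mem_Bx] at ht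
      rw [mem_coe, mem_Icc]
      omega
    · intro t ht t' ht' h
      rw [mem_coe, mem_filter] at ht ht'
      refine Prod.ext h ?_
      rw [ht.2, ht'.2, h]
  refine h1.trans ?_
  rw [Int.card_Icc]
  omega

/-- the number of the nonzero multiples -/
lemma card_mult (N g : ℕ) (hg : 1 ≤ g) :
    ((Icc (-(N : ℤ)) N).filter (fun a => a ≠ 0 ∧ (g : ℤ) ∣ a)).card ≤ 2 * (N / g) := by
  classical
  have h1 : ((Icc (-(N : ℤ)) N).filter (fun a => a ≠ 0 ∧ (g : ℤ) ∣ a)).card ≤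
      ((Icc (-((N / g : ℕ) : ℤ)) ((N / g : ℕ) : ℤ)).erase 0).card := by
    apply card_le_card_of_injOn (fun a => a / (g : ℤ))
    · intro a ha
      rw [mem_coe, mem_filter, mem_Icc] at ha
      obtain ⟨⟨h1, h2⟩, h3, b, rfl⟩ := ha
      have hg0 : (g : ℤ) ≠ 0 := by exact_mod_cast (by omega : g ≠ 0)
      have hb : (g : ℤ) * b / (g : ℤ) = b := Int.mul_ediv_cancel_left _ hg0
      have h4 : b.natAbs ≤ N / g := by
        rw [Nat.le_div_iff_mul_le (by omega)]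
        have : ((g : ℤ) * b).natAbs ≤ N := by omega
        rw [Int.natAbs_mul, Int.natAbs_natCast] at this
        linarith
      rw [mem_coe, mem_erase, mem_Icc]
      simp only [hb]
      refine ⟨?_, by omega, by omega⟩
      rintro rfl
      simp at h3
    · intro a ha a' ha' h
      rw [mem_coe, mem_filter] at ha ha'
      simp only at h
      rw [← Int.ediv_mul_cancel ha.2.2, ← Int.ediv_mul_cancel ha'.2.2, h]
  refine h1.trans ?_
  have h0 : (0 : ℤ) ≤ ((N / g : ℕ) : ℤ) := Int.natCast_nonneg _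
  generalize N / g = k at *
  rw [card_erase_of_mem (by rw [mem_Icc]; omega), Int.card_Icc]
  omega

/-- the number of the points with a large gcd -/
lemma card_gcd (N X : ℕ) (hX : 1 ≤ X) :
    (((Bx N).filter (fun t => X < Int.gcd t.1 t.2)).card : ℝ) ≤ 4 * N ^ 2 / X := by
  classical
  have h1 : (Bx N).filter (fun t => X < Int.gcd t.1 t.2) ⊆ (Ioc X N).biUnion (fun g =>
      (Icc (-(N : ℤ)) N).filter (fun a => a ≠ 0 ∧ (g : ℤ) ∣ a) ×ˢ
        (Icc (-(N : ℤ)) N).filter (fun a => a ≠ 0 ∧ (g : ℤ) ∣ a)) := by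
    intro t ht
    rw [mem_filter, mem_Bx] at ht
    obtain ⟨⟨h1, h2, h3, h4, h5⟩, h6⟩ := ht
    rw [mem_biUnion]
    refine ⟨Int.gcd t.1 t.2, ?_, ?_⟩
    · rw [mem_Ioc]
      refine ⟨h6, ?_⟩
      have : Int.gcd t.1 t.2 ≤ t.1.natAbs :=
        Nat.le_of_dvd (Int.natAbs_pos.2 h3) (Int.natCast_dvd.mp (Int.gcd_dvd_left ..))
      omega
    · rw [mem_product, mem_filter, mem_filter, mem_Icc, mem_Icc]
      exact ⟨⟨⟨by omega, by omega⟩, h3, Int.gcd_dvd_left ..⟩,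
        ⟨⟨by omega, by omega⟩, h4, Int.gcd_dvd_right ..⟩⟩
  have h2 : ((Bx N).filter (fun t => X < Int.gcd t.1 t.2)).card ≤
      ∑ g ∈ Ioc X N, (2 * (N / g)) * (2 * (N / g)) := by
    refine (card_le_card h1).trans (card_biUnion_le.trans ?_)
    apply sum_le_sum
    intro g hg
    rw [mem_Ioc] at hg
    rw [card_product]
    exact Nat.mul_le_mul (card_mult N g (by omega)) (card_mult N g (by omega))
  have h3 : ((∑ g ∈ Ioc X N, (2 * (N / g)) * (2 * (N / g)) : ℕ) : ℝ) ≤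
      4 * N ^ 2 * ∑ g ∈ Ioc X N, ((g : ℝ) ^ 2)⁻¹ := by
    rw [Nat.cast_sum, mul_sum]
    apply sum_le_sum
    intro g hg
    rw [mem_Ioc] at hg
    have h4 : ((N / g : ℕ) : ℝ) ≤ (N : ℝ) / g := Nat.cast_div_le
    have h5 : (0 : ℝ) < g := by exact_mod_cast (by omega : 0 < g)
    push_cast
    calc (2 * ((N / g : ℕ) : ℝ)) * (2 * ((N / g : ℕ) : ℝ)) ≤
          (2 * ((N : ℝ) / g)) * (2 * ((N : ℝ) / g)) := by gcongr
      _ = 4 * N ^ 2 * ((g : ℝ) ^ 2)⁻¹ := by field_simp; ring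
  have h4 : ∑ g ∈ Ioc X N, ((g : ℝ) ^ 2)⁻¹ ≤ (X : ℝ)⁻¹ := by
    rcases le_or_gt X N with h | h
    · have := sum_Ioc_inv_sq_le_sub (α := ℝ) (by omega : X ≠ 0) h
      have h5 : (0 : ℝ) ≤ (N : ℝ)⁻¹ := by positivity
      linarith
    · rw [Ioc_eq_empty (by omega), sum_empty]
      positivity
  calc (((Bx N).filter (fun t => X < Int.gcd t.1 t.2)).card : ℝ) ≤
        ((∑ g ∈ Ioc X N, (2 * (N / g)) * (2 * (N / g)) : ℕ) : ℝ) := by exact_mod_cast h2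
    _ ≤ 4 * N ^ 2 * ∑ g ∈ Ioc X N, ((g : ℝ) ^ 2)⁻¹ := h3
    _ ≤ 4 * N ^ 2 * (X : ℝ)⁻¹ := by gcongr
    _ = _ := by rw [div_eq_mul_inv]

theorem box_of (h : AVGR) (h2 : OMG) : BOX := by
  classical
  obtain ⟨C1, hC1, ht⟩ := trivBox h2
  have h' : ∀ e ∈ sg, ∃ C : ℝ, 0 ≤ C ∧ ∀ X : ℕ, 1 ≤ X →
    ∑ y ∈ Q (al e) (be e) X, (2 : ℝ) ^ Module.finrank ℤ (EAB (ps e y).1 (ps e y).2).toAffine.Point
      ≤ C * X ^ 4 := by
    intro e he
    exact h (al e) (be e) (al_ne he) (res_ne he) (by simp [al]; ring) (by simp [be])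
  choose! C hC hA using h'
  refine ⟨144 * (∑ e ∈ sg, C e) + 7 * C1, by
    have : 0 ≤ ∑ e ∈ sg, C e := sum_nonneg hC
    positivity, ?_⟩
  intro N hN
  set X := Nat.sqrt (3 * N) + 1 with hX
  have hX1 : 3 * N ≤ X ^ 2 := by
    have := Nat.lt_succ_sqrt (3 * N)
    rw [hX, pow_two]
    exact this.le
  have hX2 : X ^ 2 ≤ 12 * N := by
    have h1 := Nat.sqrt_le (3 * N)
    have h3 : 1 ≤ Nat.sqrt (3 * N) := by
      rw [Nat.le_sqrt]; omega
    rw [hX]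
    nlinarith
  have hXp : 1 ≤ X := by omega
  set f : ℤ × ℤ → ℝ := fun t => (2 : ℝ) ^ Module.finrank ℤ (EAB t.1 t.2).toAffine.Point with hf
  have hf0 : ∀ t, 0 ≤ f t := fun t => by rw [hf]; positivity
  show ∑ t ∈ Bx N, f t ≤ _
  rw [← sum_filter_add_sum_filter_not (Bx N) (fun t => t.2 ≠ 2 * t.1 ∧ Int.gcd t.1 t.2 ≤ X)]
  have hN1 : (1 : ℝ) ≤ N := by exact_mod_cast hN
  have p1 : ∑ t ∈ (Bx N).filter (fun t => t.2 ≠ 2 * t.1 ∧ Int.gcd t.1 t.2 ≤ X), f t ≤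
      144 * (∑ e ∈ sg, C e) * N ^ 2 := by
    refine (mainPart f hf0 N X hX1).trans ?_
    calc ∑ e ∈ sg, ∑ y ∈ Q (al e) (be e) X, f (ps e y) ≤ ∑ e ∈ sg, C e * X ^ 4 :=
          sum_le_sum (fun e he => hA e he X hXp)
      _ = (∑ e ∈ sg, C e) * X ^ 4 := by rw [sum_mul]
      _ ≤ (∑ e ∈ sg, C e) * (144 * N ^ 2) := by
          have h3 : (X : ℝ) ^ 4 ≤ 144 * N ^ 2 := by
            have h4 : X ^ 4 ≤ 144 * N ^ 2 := by
              calc X ^ 4 = (X ^ 2) ^ 2 := by ring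
                _ ≤ (12 * N) ^ 2 := Nat.pow_le_pow_left hX2 2
                _ = 144 * N ^ 2 := by ring
            exact_mod_cast h4
          have : 0 ≤ ∑ e ∈ sg, C e := sum_nonneg hC
          gcongr
      _ = _ := by ring
  have p2 : ∑ t ∈ (Bx N).filter (fun t => ¬ (t.2 ≠ 2 * t.1 ∧ Int.gcd t.1 t.2 ≤ X)), f t ≤
      7 * C1 * N ^ 2 := by
    have hs : (0 : ℝ) ≤ Real.sqrt N := Real.sqrt_nonneg _
    have hs1 : Real.sqrt N ^ 2 = N := Real.sq_sqrt (Nat.cast_nonneg N)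
    have hs2 : (1 : ℝ) ≤ Real.sqrt N := by
      rw [show (1 : ℝ) = Real.sqrt 1 by simp]
      exact Real.sqrt_le_sqrt hN1
    have h3 : ∑ t ∈ (Bx N).filter (fun t => ¬ (t.2 ≠ 2 * t.1 ∧ Int.gcd t.1 t.2 ≤ X)), f t ≤
        (((Bx N).filter (fun t => ¬ (t.2 ≠ 2 * t.1 ∧ Int.gcd t.1 t.2 ≤ X))).card : ℝ) *
          (C1 * Real.sqrt N) := by
      rw [← nsmul_eq_mul]
      apply sum_le_card_nsmul
      intro t ht'
      rw [mem_filter, mem_Bx] at ht'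
      exact ht N hN t.1 t.2 ht'.1.2.2.1 ht'.1.2.2.2.1 ht'.1.2.2.2.2 ht'.1.1 ht'.1.2.1
    have h4 : ((Bx N).filter (fun t => ¬ (t.2 ≠ 2 * t.1 ∧ Int.gcd t.1 t.2 ≤ X))).card ≤
        ((Bx N).filter (fun t => t.2 = 2 * t.1)).card +
          ((Bx N).filter (fun t => X < Int.gcd t.1 t.2)).card := by
      refine le_trans (card_le_card ?_) (card_union_le _ _)
      intro t ht'
      rw [mem_filter] at ht'
      rw [mem_union, mem_filter, mem_filter]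
      by_cases h5 : t.2 = 2 * t.1
      · left; exact ⟨ht'.1, h5⟩
      · right; refine ⟨ht'.1, ?_⟩
        by_contra h6
        exact ht'.2 ⟨h5, by omega⟩
    have h5 : (((Bx N).filter (fun t => ¬ (t.2 ≠ 2 * t.1 ∧ Int.gcd t.1 t.2 ≤ X))).card : ℝ) ≤
        3 * N + 4 * N ^ 2 / X := by
      have h6 := card_line N hN
      have h7 := card_gcd N X hXp
      have h8 : (((Bx N).filter (fun t => t.2 = 2 * t.1)).card : ℝ) ≤ 3 * N := by
        exact_mod_cast h6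
      have h9 : (((Bx N).filter (fun t => ¬ (t.2 ≠ 2 * t.1 ∧ Int.gcd t.1 t.2 ≤ X))).card : ℝ) ≤
          (((Bx N).filter (fun t => t.2 = 2 * t.1)).card : ℝ) +
          (((Bx N).filter (fun t => X < Int.gcd t.1 t.2)).card : ℝ) := by exact_mod_cast h4
      linarith
    have h6 : Real.sqrt N ≤ X := by
      rw [Real.sqrt_le_left (by positivity)]
      have : N ≤ X ^ 2 := by omega
      exact_mod_cast this
    have h7 : 4 * (N : ℝ) ^ 2 / X * Real.sqrt N ≤ 4 * N ^ 2 := by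
      have hXp' : (0 : ℝ) < X := by exact_mod_cast hXp
      rw [div_mul_eq_mul_div, div_le_iff₀ hXp']
      gcongr
    have h8 : Real.sqrt N ≤ N := by nlinarith
    calc _ ≤ _ := h3
      _ ≤ (3 * N + 4 * N ^ 2 / X) * (C1 * Real.sqrt N) := by gcongr
      _ = C1 * (3 * N * Real.sqrt N + 4 * N ^ 2 / X * Real.sqrt N) := by ring
      _ ≤ C1 * (3 * N * N + 4 * N ^ 2) := by gcongr
      _ = _ := by ring
  calc _ ≤ _ := add_le_add p1 p2
    _ = _ := by ring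

end Pool.Agent.K6.H25.TT
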